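import Pool.Agent.H.MP_58d537_lc.AAP.Poly

/-!
# Influential variables of bounded low-degree polynomials on the cube

The statement uses no definition of its own: `f` is given by its coefficients `c A` in the monomials
`∏_{i ∈ A} x_i`, `x_i ∈ {0,1}`, and `Function.update x i (!(x i))` is `x` with the bit `i` flipped.
-/

set_option autoImplicit false

namespace Pool.Agent.Results.MP_58d537_lc.BoundedPolynomials

open Finset Pool.Agent.H.MP_58d537_lc.A20 Pool.Agent.H.MP_58d537_lc.AAP in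
/-- Every real polynomial `f` of degree at most `d` in `N` bits, with values in `[0, 1]` and
variance `V > 0`, has a variable `i` of influence `E (f(x) - f(x^i))²` at least
`V^25 / (2^156 d^16)`. -/
theorem result (N d : ℕ) (hd : 1 ≤ d) (f : (Fin N → Bool) → ℝ) (c : Finset (Fin N) → ℝ)
    (hdeg : ∀ A : Finset (Fin N), d < A.card → c A = 0)
    (hf : ∀ x : Fin N → Bool, f x = ∑ A, c A * ∏ i ∈ A, (if x i then (1 : ℝ) else 0))
    (h0 : ∀ x, 0 ≤ f x) (h1 : ∀ x, f x ≤ 1) (E V : ℝ)
    (hE : E = (∑ x : Fin N → Bool, f x) / 2 ^ N)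
    (hV : V = (∑ x : Fin N → Bool, (f x - E) ^ 2) / 2 ^ N) (hpos : 0 < V) :
    ∃ i : Fin N, V ^ 25 / (2 ^ 156 * (d : ℝ) ^ 16) ≤
      (∑ x : Fin N → Bool, (f x - f (Function.update x i (!(x i)))) ^ 2) / 2 ^ N := by
  have hEa : E = avg f := hE
  exact influence01 hd f ⟨c, hdeg, hf⟩ h0 h1 V (by rw [hV, hEa]; rfl) hpos

end Pool.Agent.Results.MP_58d537_lc.BoundedPolynomials
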