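import Pool.Agent.H.MP_58d537_lc.AAP.XorQ

/-!
# Bit fixing for quantum query algorithms in the standard oracle model

`oracle x` is the permutation matrix `|i, b, w⟩ ↦ |i, b ⊕ x_i, w⟩`, `state U s₀ x T` is the vector
`U_T O_x U_{T-1} ⋯ O_x U_0 |s₀⟩` and `acc U s₀ Acc T x` is the probability that the measured basis
state lies in `Acc`.
-/

set_option autoImplicit false

namespace Pool.Agent.Results.MP_58d537_lc.XorOracle

open Finset Pool.Agent.H.MP_58d537_lc.A20 Pool.Agent.H.MP_58d537_lc.AAP in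
/-- Let `p x` be the probability that a quantum algorithm making `T ≥ 1` queries to
`x ∈ {0,1}^N` accepts, `E` and `Var > 0` the mean and the variance of `p`. There is a bit-fixing
source fixing at most `2^199 T^16 / Var^25` bits which changes the acceptance probability by at
least `√(Var/2)`. -/
theorem result (N m T : ℕ) (hT : 1 ≤ T)
    (U : ℕ → Matrix.unitaryGroup (Fin N × Bool × Fin m) ℂ)
    (s₀ : Fin N × Bool × Fin m) (Acc : Finset (Fin N × Bool × Fin m))
    (E Var : ℝ)
    (hE : E = (∑ x : Fin N → Bool, acc U s₀ Acc T x) / 2 ^ N)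
    (hVar : Var = (∑ x : Fin N → Bool, (acc U s₀ Acc T x - E) ^ 2) / 2 ^ N)
    (hpos : 0 < Var) :
    ∃ (S : Finset (Fin N)) (a : Fin N → Bool),
      (S.card : ℝ) ≤ 2 ^ 199 * (T : ℝ) ^ 16 / Var ^ 25 ∧
      Real.sqrt (Var / 2) ≤
        |(∑ x ∈ Finset.univ.filter (fun x : Fin N → Bool => ∀ i ∈ S, x i = a i),
              acc U s₀ Acc T x)
            / ((Finset.univ.filter (fun x : Fin N → Bool => ∀ i ∈ S, x i = a i)).card : ℝ)
          - E| := by
  have hEa : E = avg (acc U s₀ Acc T) := hE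
  have hVa : Var = avg (fun x => (acc U s₀ Acc T x - avg (acc U s₀ Acc T)) ^ 2) := by
    rw [hVar, hEa]; rfl
  obtain ⟨S, a, hS, hdev⟩ := fixing01 (d := 2 * T) (by omega) (acc U s₀ Acc T)
    (isPoly_acc U s₀ Acc T) (acc_nonneg U s₀ Acc T) (acc_le_one U s₀ Acc T) Var hVa hpos
  refine ⟨S, a, hS.trans (le_of_eq ?_), ?_⟩
  · push_cast
    field_simp
  · rw [← avg_ov S a (acc U s₀ Acc T), hEa]
    calc Real.sqrt (Var / 2) ≤ Real.sqrt ((avg (fun x => acc U s₀ Acc T (ov S a x)) -
          avg (acc U s₀ Acc T)) ^ 2) := Real.sqrt_le_sqrt hdev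
      _ = _ := Real.sqrt_sq_eq_abs _

end Pool.Agent.Results.MP_58d537_lc.XorOracle
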